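import Mathlib
import Pool.Agent.Lib.MP_1d980c_gt.QuotMulti
import Pool.Agent.Lib.MP_1d980c_gt.TauChart

set_option autoImplicit false
set_option maxHeartbeats 1000000
open scoped Manifold ContDiff Matrix Topology
open Complex Set

namespace Pool.Agent.TwistGen

open Pool.Agent.TorusBundle

section Linear

variable {m : ℕ}

/-- The real linear map attached to a complex matrix. -/
noncomputable def rmap (M : Fin m → Fin (2 * m) → ℂ) : (Fin (2 * m) → ℝ) →L[ℝ] (Fin m → ℂ) :=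
  ∑ k, (ContinuousLinearMap.proj (R := ℝ) (φ := fun _ : Fin (2 * m) => ℝ) k).smulRight
    (fun i => M i k)

lemma rmap_apply (M : Fin m → Fin (2 * m) → ℂ) (v : Fin (2 * m) → ℝ) (i : Fin m) :
    rmap M v i = ∑ k, M i k * (v k : ℂ) := by
  unfold rmap
  rw [sum_apply, Finset.sum_apply]
  refine Finset.sum_congr rfl fun k _ => ?_
  rw [ContinuousLinearMap.smulRight_apply, ContinuousLinearMap.proj_apply, Pi.smul_apply,
    Complex.real_smul]
  exact mul_comm _ _

lemma contDiff_rmap : ContDiff ℝ ∞ (rmap (m := m)) := by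
  unfold rmap
  refine ContDiff.sum fun k _ => ?_
  refine ContDiff.smulRight contDiff_const ?_
  rw [contDiff_pi]
  intro i
  exact (contDiff_apply ℝ ℂ k).comp (contDiff_apply ℝ (Fin (2 * m) → ℂ) i)

/-- The real linear isomorphism attached to a nondegenerate complex matrix. -/
noncomputable def requiv (M : Fin m → Fin (2 * m) → ℂ) (h : ∀ v, rmap M v = 0 → v = 0) :
    (Fin (2 * m) → ℝ) ≃L[ℝ] (Fin m → ℂ) :=
  (LinearMap.linearEquivOfInjective (rmap M : (Fin (2 * m) → ℝ) →ₗ[ℝ] (Fin m → ℂ))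
    ((injective_iff_map_eq_zero _).2 h) (by
      rw [Module.finrank_fintype_fun_eq_card, Module.finrank_pi_fintype]
      simp [mul_comm])).toContinuousLinearEquiv

lemma requiv_coe (M : Fin m → Fin (2 * m) → ℂ) (h : ∀ v, rmap M v = 0 → v = 0) :
    ((requiv M h : (Fin (2 * m) → ℝ) ≃L[ℝ] (Fin m → ℂ)) :
    (Fin (2 * m) → ℝ) →L[ℝ] (Fin m → ℂ)) = rmap M := by
  ext v; rfl

lemma inverse_rmap (M : Fin m → Fin (2 * m) → ℂ) (h : ∀ v, rmap M v = 0 → v = 0)
    (v : Fin (2 * m) → ℝ) : ContinuousLinearMap.inverse (rmap M) (rmap M v) = v := by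
  rw [← requiv_coe M h, ContinuousLinearMap.inverse_equiv]
  exact (requiv M h).symm_apply_apply v

lemma rmap_inverse (M : Fin m → Fin (2 * m) → ℂ) (h : ∀ v, rmap M v = 0 → v = 0)
    (z : Fin m → ℂ) : rmap M (ContinuousLinearMap.inverse (rmap M) z) = z := by
  rw [← requiv_coe M h, ContinuousLinearMap.inverse_equiv]
  exact (requiv M h).apply_symm_apply z

lemma contDiffAt_inverse (M : Fin m → Fin (2 * m) → ℂ) (h : ∀ v, rmap M v = 0 → v = 0) :
    ContDiffAt ℝ ∞ (fun M' => ContinuousLinearMap.inverse (rmap (m := m) M')) M := by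
  have h2 : ContDiffAt ℝ ∞ (ContinuousLinearMap.inverse :
      ((Fin (2 * m) → ℝ) →L[ℝ] (Fin m → ℂ)) → _) (rmap M) := by
    rw [← requiv_coe M h]
    exact contDiffAt_map_inverse _
  exact h2.comp M contDiff_rmap.contDiffAt

end Linear

open Pool.Agent.EllipticTwist

variable {m n : ℕ} {X : Type} [TopologicalSpace X] [ChartedSpace (EuclideanSpace ℂ (Fin n)) X]

/-- A local datum: a chart of `X`, a smooth nondegenerate matrix `A` and a smooth vector `B` on an
open subset. The fibre coordinate is `A v + B`. -/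
structure AX (m n : ℕ) (X : Type) [TopologicalSpace X]
    [ChartedSpace (EuclideanSpace ℂ (Fin n)) X] where
  x0 : X
  A : X → (Fin m → Fin (2 * m) → ℂ)
  B : X → (Fin m → ℂ)
  U : Set X
  isOpen : IsOpen U
  sub : U ⊆ (chartAt (EuclideanSpace ℂ (Fin n)) x0).source
  hA : ContMDiffOn 𝓘(ℝ, EuclideanSpace ℂ (Fin n)) 𝓘(ℝ, Fin m → Fin (2 * m) → ℂ) ∞ A U
  hB : ContMDiffOn 𝓘(ℝ, EuclideanSpace ℂ (Fin n)) 𝓘(ℝ, Fin m → ℂ) ∞ B U
  nd : ∀ x ∈ U, ∀ v : Fin (2 * m) → ℝ, rmap (A x) v = 0 → v = 0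

/-- The coordinate map attached to a local datum. -/
noncomputable def aTo (D : AX m n X) (p : PX m X) : EuclideanSpace ℂ (Fin (m + n)) :=
  eX m n (rmap (D.A p.2) p.1 + D.B p.2, chartAt (EuclideanSpace ℂ (Fin n)) D.x0 p.2)

/-- The base point of a point of the coordinate space. -/
noncomputable def aB (D : AX m n X) (z : EuclideanSpace ℂ (Fin (m + n))) : X :=
  (chartAt (EuclideanSpace ℂ (Fin n)) D.x0).symm ((eX m n).symm z).2

/-- The inverse of the coordinate map. -/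
noncomputable def aInv (D : AX m n X) (z : EuclideanSpace ℂ (Fin (m + n))) : PX m X :=
  (ContinuousLinearMap.inverse (rmap (D.A (aB D z))) (((eX m n).symm z).1 - D.B (aB D z)), aB D z)

/-- The source of the coordinate map. -/
def aS (D : AX m n X) : Set (PX m X) := (fun p : PX m X => p.2) ⁻¹' D.U

/-- The target of the coordinate map. -/
noncomputable def aT (D : AX m n X) : Set (EuclideanSpace ℂ (Fin (m + n))) :=
  (fun z => ((eX m n).symm z).2) ⁻¹' ((chartAt (EuclideanSpace ℂ (Fin n)) D.x0).target ∩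
    (chartAt (EuclideanSpace ℂ (Fin n)) D.x0).symm ⁻¹' D.U)

lemma isOpen_aS (D : AX m n X) : IsOpen (aS (m := m) D) :=
  D.isOpen.preimage continuous_snd

lemma isOpen_aT (D : AX m n X) : IsOpen (aT (m := m) D) := by
  have h1 : Continuous (fun z : EuclideanSpace ℂ (Fin (m + n)) => ((eX m n).symm z).2) :=
    continuous_snd.comp (eX m n).symm.continuous
  exact ((chartAt _ D.x0).isOpen_inter_preimage_symm D.isOpen).preimage h1

lemma aB_aTo (D : AX m n X) {p : PX m X} (hp : p ∈ aS (m := m) D) : aB D (aTo D p) = p.2 := by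
  unfold aB aTo
  rw [ContinuousLinearEquiv.symm_apply_apply]
  exact (chartAt _ D.x0).left_inv (D.sub hp)

lemma a_left (D : AX m n X) {p : PX m X} (hp : p ∈ aS (m := m) D) : aInv D (aTo D p) = p := by
  unfold aInv
  rw [aB_aTo D hp]
  unfold aTo
  rw [ContinuousLinearEquiv.symm_apply_apply]
  simp only [add_sub_cancel_right]
  rw [inverse_rmap _ (D.nd p.2 hp)]

lemma a_right (D : AX m n X) {z : EuclideanSpace ℂ (Fin (m + n))}
    (hz : z ∈ aT (m := m) D) : aTo D (aInv D z) = z := by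
  have hU : aB D z ∈ D.U := hz.2
  unfold aInv aTo
  simp only
  rw [rmap_inverse _ (D.nd _ hU), sub_add_cancel]
  unfold aB
  rw [(chartAt _ D.x0).right_inv hz.1]
  exact (eX m n).apply_symm_apply z

variable [IsManifold 𝓘(ℝ, EuclideanSpace ℂ (Fin n)) ∞ X]

lemma contMDiffOn_aTo (D : AX m n X) :
    ContMDiffOn (IX m n) 𝓘(ℝ, EuclideanSpace ℂ (Fin (m + n))) ∞ (aTo D) (aS (m := m) D) := by
  have hy : ContMDiffOn (IX m n) 𝓘(ℝ, EuclideanSpace ℂ (Fin n)) ∞
      (fun p : PX m X => p.2) (aS (m := m) D) := contMDiff_snd.contMDiffOn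
  have hmaps : MapsTo (fun p : PX m X => p.2) (aS (m := m) D) D.U := fun p hp => hp
  have hχ : ContMDiffOn (IX m n) 𝓘(ℝ, EuclideanSpace ℂ (Fin n)) ∞
      (fun p : PX m X => chartAt (EuclideanSpace ℂ (Fin n)) D.x0 p.2) (aS (m := m) D) :=
    (contMDiffOn_chart (I := 𝓘(ℝ, EuclideanSpace ℂ (Fin n))) (x := D.x0)).comp hy
      (fun p hp => D.sub hp)
  have hA1 : ContMDiffOn (IX m n) 𝓘(ℝ, Fin m → Fin (2 * m) → ℂ) ∞ (fun p : PX m X => D.A p.2)
      (aS (m := m) D) := D.hA.comp hy hmaps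
  have hB1 : ContMDiffOn (IX m n) 𝓘(ℝ, Fin m → ℂ) ∞ (fun p : PX m X => D.B p.2)
      (aS (m := m) D) := D.hB.comp hy hmaps
  have hv : ContMDiffOn (IX m n) 𝓘(ℝ, Fin (2 * m) → ℝ) ∞ (fun p : PX m X => p.1)
      (aS (m := m) D) := contMDiff_fst.contMDiffOn
  have hall := hv.prodMk_space (hA1.prodMk_space (hB1.prodMk_space hχ))
  have hF : ContDiff ℝ ∞ (fun q : (Fin (2 * m) → ℝ) × ((Fin m → Fin (2 * m) → ℂ) ×
      ((Fin m → ℂ) × EuclideanSpace ℂ (Fin n))) =>
      eX m n (rmap q.2.1 q.1 + q.2.2.1, q.2.2.2)) := by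
    have he : ContDiff ℝ ∞ (eX m n) := (eX m n).contDiff.restrict_scalars ℝ
    refine he.comp (ContDiff.prodMk ?_ (by fun_prop))
    refine ContDiff.add ?_ (by fun_prop)
    exact (contDiff_rmap.comp (by fun_prop)).clm_apply (by fun_prop)
  refine ContMDiffOn.congr (hF.contMDiff.comp_contMDiffOn hall) (fun p _ => ?_)
  simp only [aTo, Function.comp]

lemma contMDiffOn_aInv (D : AX m n X) :
    ContMDiffOn 𝓘(ℝ, EuclideanSpace ℂ (Fin (m + n))) (IX m n) ∞ (aInv D) (aT (m := m) D) := by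
  have he : ContDiff ℝ ∞ (eX m n).symm := (eX m n).symm.contDiff.restrict_scalars ℝ
  have hζ : ContMDiffOn 𝓘(ℝ, EuclideanSpace ℂ (Fin (m + n)))
      𝓘(ℝ, EuclideanSpace ℂ (Fin n)) ∞ (fun z => ((eX m n).symm z).2) (aT (m := m) D) :=
    (contDiff_snd.comp he).contMDiff.contMDiffOn
  have hy : ContMDiffOn 𝓘(ℝ, EuclideanSpace ℂ (Fin (m + n)))
      𝓘(ℝ, EuclideanSpace ℂ (Fin n)) ∞ (aB D) (aT (m := m) D) :=
    (contMDiffOn_chart_symm (I := 𝓘(ℝ, EuclideanSpace ℂ (Fin n))) (x := D.x0)).comp hζ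
      (fun z hz => hz.1)
  have hmaps : MapsTo (aB D) (aT (m := m) D) D.U := fun z hz => hz.2
  have hA1 : ContMDiffOn 𝓘(ℝ, EuclideanSpace ℂ (Fin (m + n))) 𝓘(ℝ, Fin m → Fin (2 * m) → ℂ) ∞
      (fun z => D.A (aB D z)) (aT (m := m) D) := D.hA.comp hy hmaps
  have hB1 : ContMDiffOn 𝓘(ℝ, EuclideanSpace ℂ (Fin (m + n))) 𝓘(ℝ, Fin m → ℂ) ∞
      (fun z => D.B (aB D z)) (aT (m := m) D) := D.hB.comp hy hmaps
  have hz1 : ContMDiffOn 𝓘(ℝ, EuclideanSpace ℂ (Fin (m + n))) 𝓘(ℝ, Fin m → ℂ) ∞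
      (fun z => ((eX m n).symm z).1) (aT (m := m) D) :=
    (contDiff_fst.comp he).contMDiff.contMDiffOn
  have hI : ContMDiffOn 𝓘(ℝ, EuclideanSpace ℂ (Fin (m + n)))
      𝓘(ℝ, (Fin m → ℂ) →L[ℝ] (Fin (2 * m) → ℝ)) ∞
      (fun z => ContinuousLinearMap.inverse (rmap (D.A (aB D z)))) (aT (m := m) D) := by
    intro z hz
    have h1 := contDiffAt_inverse (D.A (aB D z)) (D.nd _ (hmaps hz))
    exact (h1.contMDiffAt (x := D.A (aB D z))).comp_contMDiffWithinAt z (hA1 z hz)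
  have h1 : ContMDiffOn 𝓘(ℝ, EuclideanSpace ℂ (Fin (m + n))) 𝓘(ℝ, Fin (2 * m) → ℝ) ∞
      (fun z => ContinuousLinearMap.inverse (rmap (D.A (aB D z)))
        (((eX m n).symm z).1 - D.B (aB D z))) (aT (m := m) D) :=
    hI.clm_apply (hz1.sub hB1)
  exact h1.prodMk hy

/-- The coordinates attached to a local datum. -/
noncomputable def aCh (D : AX m n X) :
    PartialDiffeomorph (IX m n) 𝓘(ℝ, EuclideanSpace ℂ (Fin (m + n))) (PX m X)
      (EuclideanSpace ℂ (Fin (m + n))) ∞ where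
  toFun := aTo D
  invFun := aInv D
  source := aS (m := m) D
  target := aT (m := m) D
  map_source' := by
    intro p hp
    have hp' : p.2 ∈ D.U := hp
    refine ⟨?_, ?_⟩
    · simp only [aTo, ContinuousLinearEquiv.symm_apply_apply]
      exact (chartAt _ D.x0).map_source (D.sub hp')
    · simp only [aTo, ContinuousLinearEquiv.symm_apply_apply]
      show (chartAt _ D.x0).symm (chartAt _ D.x0 p.2) ∈ D.U
      rw [(chartAt _ D.x0).left_inv (D.sub hp')]
      exact hp'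
  map_target' := fun z hz => hz.2
  left_inv' := fun p hp => a_left D hp
  right_inv' := fun z hz => a_right D hz
  open_source := isOpen_aS D
  open_target := isOpen_aT D
  contMDiffOn_toFun := contMDiffOn_aTo D
  contMDiffOn_invFun := contMDiffOn_aInv D

end Pool.Agent.TwistGen
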