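import Mathlib
import Pool.Agent.Lib.MP_1d980c_gt.Gen.AffChart

set_option autoImplicit false
set_option maxHeartbeats 1000000
open scoped Manifold ContDiff Matrix Topology
open Complex Set

namespace Pool.Agent.TwistGen

open Pool.Agent.TorusBundle Pool.Agent.EllipticTwist

/-- A smooth manifold `M` which is covered by pieces `ℝ^{2m} × U_i`, `U_i` open in a complex
manifold `X`, on which fibre coordinates `A_i v + B_i` are given (smooth in `x ∈ U_i`), such that
the identifications are translations `v ↦ v + κ(x)` in the fibres and are holomorphic and affine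
in the fibre coordinates, carries a complex structure. -/
theorem exists_complex_structure_affine {m n : ℕ} {X : Type} [TopologicalSpace X]
    [ChartedSpace (EuclideanSpace ℂ (Fin n)) X] [IsManifold 𝓘(ℂ, EuclideanSpace ℂ (Fin n)) ∞ X]
    {M : Type} [TopologicalSpace M] [ChartedSpace (EuclideanSpace ℝ (Fin (2 * (m + n)))) M]
    [IsManifold (𝓡 (2 * (m + n))) ∞ M]
    {ι : Type} (π : ι → PX m X → M) (D : ι → AX m n X)
    (hπ : ∀ i, ∀ p : PX m X, p.2 ∈ (D i).U →
      IsLocalDiffeomorphAt (IX m n) (𝓡 (2 * (m + n))) ∞ (π i) p)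
    (hs : ∀ z : M, ∃ i, ∃ p : PX m X, p.2 ∈ (D i).U ∧ π i p = z)
    (hdeck : ∀ (i j : ι) (v v' : Fin (2 * m) → ℝ) (y y' : X), y ∈ (D i).U → y' ∈ (D j).U →
      π i (v, y) = π j (v', y') → y' = y ∧
        ∃ (κ : X → (Fin (2 * m) → ℝ)) (R : X → (Fin m → Fin m → ℂ)) (S : X → (Fin m → ℂ))
          (W : Set X), IsOpen W ∧ y ∈ W ∧ ContinuousOn κ W ∧ v' = v + κ y ∧
          (∀ z ∈ W, ∀ u : Fin (2 * m) → ℝ, π j (u + κ z, z) = π i (u, z)) ∧
          ContMDiffOn 𝓘(ℂ, EuclideanSpace ℂ (Fin n)) 𝓘(ℂ, Fin m → Fin m → ℂ) ∞ R W ∧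
          ContMDiffOn 𝓘(ℂ, EuclideanSpace ℂ (Fin n)) 𝓘(ℂ, Fin m → ℂ) ∞ S W ∧
          ∀ z ∈ W, ∀ u : Fin (2 * m) → ℝ, rmap ((D j).A z) (u + κ z) + (D j).B z =
            fun a => ∑ b, R z a b * (rmap ((D i).A z) u + (D i).B z) b + S z a) :
    ∃ (N : Type) (_ : TopologicalSpace N) (_ : ChartedSpace (EuclideanSpace ℂ (Fin (m + n))) N),
      IsManifold 𝓘(ℂ, EuclideanSpace ℂ (Fin (m + n))) ∞ N ∧
      Nonempty (Diffeomorph (𝓡 (2 * (m + n))) 𝓘(ℝ, EuclideanSpace ℂ (Fin (m + n))) M N ∞) := by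
  classical
  have _hXr : IsManifold 𝓘(ℝ, EuclideanSpace ℂ (Fin n)) ∞ X := isManifold_real
  refine exists_complex_structure_multi π (fun i => aCh (D i)) (fun i p hp => hπ i p hp)
    (fun z => ?_) ?_
  · obtain ⟨i, p, hp, hz⟩ := hs z
    exact ⟨i, p, hp, hz⟩
  · rintro i j ⟨v, y⟩ ⟨v', y'⟩ hp hp' hpp
    have hpU : y ∈ (D i).U := hp
    have hpU' : y' ∈ (D j).U := hp'
    obtain ⟨hyy, κ, R, S, W, hW, hyW, hκ, hv, hπj, hR, hS, hRS⟩ := hdeck i j v v' y y' hpU hpU' hpp
    subst hyy
    have hκc : ContinuousAt κ y' := hκ.continuousAt (hW.mem_nhds hyW)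
    refine ⟨fun p => (p.1 + κ p.2, p.2), ?_, ?_, ?_, ?_⟩
    · have hc2 : ContinuousAt (fun p : PX m X => p.2) (v, y') := by fun_prop
      have h3 : ContinuousAt (fun p : PX m X => κ p.2) (v, y') :=
        ContinuousAt.comp (g := κ) (f := fun p : PX m X => p.2) hκc hc2
      exact ContinuousAt.prodMk (ContinuousAt.add (by fun_prop) h3) (by fun_prop)
    · simp only [hv]
    · have htend : Filter.Tendsto (fun p : PX m X => p.2) (𝓝 (v, y')) (𝓝 y') :=
        continuous_snd.tendsto _
      filter_upwards [htend.eventually (hW.mem_nhds hyW)] with p hp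
      exact hπj p.2 hp p.1
    · -- holomorphy
      set z₀ := aTo (D i) ((v, y') : PX m X) with hz₀
      have hz₀T : z₀ ∈ aT (m := m) (D i) := (aCh (D i)).map_source hpU
      have hinv : aInv (D i) z₀ = (v, y') := a_left (D i) hpU
      have hcinv : ContinuousAt (aInv (D i)) z₀ :=
        ((contMDiffOn_aInv (D i)).continuousOn).continuousAt ((isOpen_aT (D i)).mem_nhds hz₀T)
      have hcy : ContinuousAt (fun z => (aInv (D i) z).2) z₀ := continuousAt_snd.comp hcinv
      have hcy' : Filter.Tendsto (fun z => (aInv (D i) z).2) (𝓝 z₀) (𝓝 y') := by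
        have := hcy.tendsto
        simpa only [hinv] using this
      have hb0 : (chartAt (EuclideanSpace ℂ (Fin n)) (D i).x0).symm ((eX m n).symm z₀).2 = y' :=
        congrArg Prod.snd hinv
      set F : (Fin m → ℂ) × EuclideanSpace ℂ (Fin n) → (Fin m → ℂ) × EuclideanSpace ℂ (Fin n) :=
        fun q => (fun a => ∑ b, R ((chartAt (EuclideanSpace ℂ (Fin n)) (D i).x0).symm q.2) a b *
            q.1 b + S ((chartAt (EuclideanSpace ℂ (Fin n)) (D i).x0).symm q.2) a,
          chartAt (EuclideanSpace ℂ (Fin n)) (D j).x0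
            ((chartAt (EuclideanSpace ℂ (Fin n)) (D i).x0).symm q.2)) with hF
      have hFd : ContDiffAt ℂ ∞ F ((eX m n).symm z₀) := by
        have hs : ContDiffAt ℂ ∞ (fun q : (Fin m → ℂ) × EuclideanSpace ℂ (Fin n) => q.2)
            ((eX m n).symm z₀) := contDiff_snd.contDiffAt
        have hR1 : ContDiffAt ℂ ∞ (fun z => R ((chartAt (EuclideanSpace ℂ (Fin n)) (D i).x0).symm z))
            ((eX m n).symm z₀).2 :=
          contDiffAt_chart_symm hW hR (D i).x0 hz₀T.1 (by rw [hb0]; exact hyW)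
        have hS1 : ContDiffAt ℂ ∞ (fun z => S ((chartAt (EuclideanSpace ℂ (Fin n)) (D i).x0).symm z))
            ((eX m n).symm z₀).2 :=
          contDiffAt_chart_symm hW hS (D i).x0 hz₀T.1 (by rw [hb0]; exact hyW)
        have hc1 : ContDiffAt ℂ ∞ (fun z => chartAt (EuclideanSpace ℂ (Fin n)) (D j).x0
            ((chartAt (EuclideanSpace ℂ (Fin n)) (D i).x0).symm z)) ((eX m n).symm z₀).2 :=
          contDiffAt_chart_symm (chartAt (EuclideanSpace ℂ (Fin n)) (D j).x0).open_source
            (contMDiffOn_chart (I := 𝓘(ℂ, EuclideanSpace ℂ (Fin n))) (x := (D j).x0)) (D i).x0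
            hz₀T.1 (by rw [hb0]; exact (D j).sub hpU')
        have hR2 := hR1.comp _ hs
        have hS2 := hS1.comp _ hs
        refine ContDiffAt.prodMk ?_ (hc1.comp _ hs)
        rw [contDiffAt_pi]
        intro a
        refine ContDiffAt.add (ContDiffAt.sum fun b _ => ContDiffAt.mul ?_ ?_) ?_
        · exact contDiffAt_pi.1 (contDiffAt_pi.1 hR2 a) b
        · exact (contDiff_pi.1 contDiff_fst b).contDiffAt
        · exact contDiffAt_pi.1 hS2 a
      have hq : ContDiffAt ℂ ∞ (fun z => eX m n (F ((eX m n).symm z))) z₀ :=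
        (eX m n).contDiff.contDiffAt.comp z₀ (ContDiffAt.comp z₀ hFd
          (eX m n).symm.contDiff.contDiffAt)
      refine hq.congr_of_eventuallyEq ?_
      filter_upwards [(isOpen_aT (D i)).mem_nhds hz₀T, hcy'.eventually (hW.mem_nhds hyW)]
        with z hz1 hz2
      have h4 : aTo (D i) (aInv (D i) z) = z := a_right (D i) hz1
      have hU : (aInv (D i) z).2 ∈ (D i).U := hz1.2
      have h5 := hRS (aInv (D i) z).2 hz2 (aInv (D i) z).1
      have h6 : (eX m n).symm z = (rmap ((D i).A (aInv (D i) z).2) (aInv (D i) z).1 +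
          (D i).B (aInv (D i) z).2, chartAt (EuclideanSpace ℂ (Fin n)) (D i).x0
            (aInv (D i) z).2) := by
        conv_lhs => rw [← h4]
        unfold aTo
        rw [ContinuousLinearEquiv.symm_apply_apply]
      show aTo (D j) ((aInv (D i) z).1 + κ (aInv (D i) z).2, (aInv (D i) z).2) = _
      unfold aTo
      simp only
      rw [h5]
      congr 1
      have h7 : (chartAt (EuclideanSpace ℂ (Fin n)) (D i).x0).symm ((eX m n).symm z).2 =
          (aInv (D i) z).2 := rfl
      simp only [hF]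
      rw [h7]
      congr 1
      funext a
      rw [h6]

end Pool.Agent.TwistGen
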