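import Mathlib

set_option autoImplicit false
open scoped UpperHalfPlane MatrixGroups

namespace Pool.Agent.TwistGen

/-- A compact Riemann surface of genus at least one, presented by its uniformisation: either the
elliptic curve `ℂ / (ℤ + ℤτ)`, or the quotient of the upper half plane by a discrete subgroup of
`SL(2, ℝ)` acting freely and cocompactly. -/
inductive Curve : Type
  | elliptic (τ : ℂ) (hτ : 0 < τ.im) : Curve
  | hyperbolic (Γ : Subgroup SL(2, ℝ)) (hd : DiscreteTopology Γ)
      (hfree : ∀ γ : Γ, γ ≠ 1 → ∀ w : ℍ, γ • w ≠ w)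
      (hcoc : ∃ K : Set ℍ, IsCompact K ∧ ∀ w : ℍ, ∃ γ : Γ, γ • w ∈ K) : Curve

namespace Curve

/-- The universal cover of the curve: the complex plane or the upper half plane. -/
def dom : Curve → Set ℂ
  | elliptic _ _ => Set.univ
  | hyperbolic _ _ _ _ => {w | 0 < w.im}

/-- The fundamental group of the curve. -/
def Grp : Curve → Type
  | elliptic _ _ => Multiplicative (ℤ × ℤ)
  | hyperbolic Γ _ _ _ => Γ

instance instGroup : (C : Curve) → Group C.Grp
  | elliptic _ _ => inferInstanceAs (Group (Multiplicative (ℤ × ℤ)))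
  | hyperbolic Γ _ _ _ => inferInstanceAs (Group Γ)

/-- The action of the fundamental group on the universal cover: translations by the lattice,
respectively Moebius transformations. -/
noncomputable def act : (C : Curve) → C.Grp → ℂ → ℂ
  | elliptic τ _ => fun g w =>
      w + (((Multiplicative.toAdd (show Multiplicative (ℤ × ℤ) from g)).1 : ℤ) +
        ((Multiplicative.toAdd (show Multiplicative (ℤ × ℤ) from g)).2 : ℤ) * τ)
  | hyperbolic Γ _ _ _ => fun g w =>
      ((((show Γ from g) : SL(2, ℝ)) 0 0 : ℝ) * w + (((show Γ from g) : SL(2, ℝ)) 0 1 : ℝ)) /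
        ((((show Γ from g) : SL(2, ℝ)) 1 0 : ℝ) * w + (((show Γ from g) : SL(2, ℝ)) 1 1 : ℝ))

end Curve

end Pool.Agent.TwistGen
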