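import Mathlib
import Pool.Agent.Lib.MP_1d980c_gt.Hyp.Pencil
import Pool.Agent.Lib.MP_1d980c_gt.Hyp.Growth
import Pool.Agent.Lib.MP_1d980c_gt.Hyp.Net

set_option autoImplicit false
open scoped UpperHalfPlane MatrixGroups Manifold ContDiff Matrix Topology
open Complex ComplexConjugate

namespace Pool.Agent.TwistGen

open Pool.Agent.HypBundle

/-- A homomorphism from a cocompact Fuchsian group to `ℤ` grows at most exponentially (in fact
linearly) with the displacement. -/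
theorem hom_growth (Γ : Subgroup SL(2, ℝ)) [DiscreteTopology Γ]
    (hcoc : ∃ K : Set ℍ, IsCompact K ∧ ∀ w : ℍ, ∃ γ : Γ, γ • w ∈ K)
    (φ : Γ →* Multiplicative ℤ) (O : Finset ℍ) (w : ℍ) :
    ∃ B : ℝ, 0 ≤ B ∧ ∀ o ∈ O, ∀ γ : Γ,
      |((Multiplicative.toAdd (φ γ) : ℤ) : ℝ)| ≤ B * Real.exp (1 * dist o (γ • w)) := by
  classical
  obtain ⟨K, hK, hcov⟩ := hcoc
  have hK' : IsCompact (Metric.cthickening 1 K) := hK.cthickening
  have hfin : Set.Finite {γ : Γ |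
      ((γ • ·) '' Metric.cthickening 1 K ∩ Metric.cthickening 1 K).Nonempty} :=
    ProperlyDiscontinuousSMul.finite_disjoint_inter_image hK' hK'
  set f : Γ → ℝ := fun γ => ((Multiplicative.toAdd (φ γ) : ℤ) : ℝ) with hf
  have hfmul : ∀ a b : Γ, f (a * b) = f a + f b := by
    intro a b
    simp only [hf, map_mul, toAdd_mul]
    push_cast
    ring
  obtain ⟨M, hM0, hM⟩ : ∃ M : ℝ, 0 ≤ M ∧ ∀ γ ∈ hfin.toFinset, |f γ| ≤ M := by
    refine ⟨∑ γ ∈ hfin.toFinset, |f γ|, Finset.sum_nonneg fun _ _ => abs_nonneg _, ?_⟩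
    intro γ hγ
    exact Finset.single_le_sum (f := fun γ => |f γ|) (fun _ _ => abs_nonneg _) hγ
  have hstep : ∀ (g h : Γ) (x y : ℍ), dist x y ≤ 1 → g • x ∈ K → h • y ∈ K → |f h - f g| ≤ M := by
    intro g h x y hxy hx hy
    have h1 : h * g⁻¹ ∈ hfin.toFinset := by
      rw [Set.Finite.mem_toFinset, Set.mem_ofPred_eq]
      refine ⟨h • y, ⟨g • y, ?_, ?_⟩, Metric.self_subset_cthickening K hy⟩
      · refine Metric.mem_cthickening_of_dist_le _ (g • x) _ _ hx ?_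
        rw [e2_dist, dist_comm]
        exact hxy
      · simp only
        rw [smul_smul, inv_mul_cancel_right]
    have h2 := hM _ h1
    have h3 : f h = f (h * g⁻¹) + f g := by rw [← hfmul, inv_mul_cancel_right]
    rw [h3, add_sub_cancel_right]
    exact h2
  have hchain : ∀ (k : ℕ) (z : ℕ → ℍ), (∀ i < k, dist (z i) (z (i + 1)) ≤ 1) → ∀ (g h : Γ),
      g • z 0 ∈ K → h • z k ∈ K → |f h - f g| ≤ M * (k + 1) := by
    intro k z hz
    induction k with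
    | zero =>
      intro g h hg hh
      have := hstep g h (z 0) (z 0) (by rw [dist_self]; norm_num) hg hh
      simpa using this
    | succ k ih =>
      intro g h hg hh
      obtain ⟨u, hu⟩ := hcov (z k)
      have h1 := ih (fun i hi => hz i (by omega)) g u hg hu
      have h2 := hstep u h (z k) (z (k + 1)) (hz k (by omega)) hu hh
      have h3 : f h - f g = (f h - f u) + (f u - f g) := by ring
      rw [h3]
      refine (abs_add_le _ _).trans ?_
      push_cast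
      linarith
  obtain ⟨gw, hgw⟩ := hcov w
  choose g hg using hcov
  set C : ℝ := ∑ o ∈ O, |f (g o)| + |f gw| with hC
  have hC0 : 0 ≤ C := add_nonneg (Finset.sum_nonneg fun _ _ => abs_nonneg _) (abs_nonneg _)
  refine ⟨8 * M + C, by positivity, ?_⟩
  intro o ho γ
  obtain ⟨k, z, hk, hz0, hzk, hz⟩ := chain o (γ • w) one_pos
  have h1 := hchain k z hz (g o) (gw * γ⁻¹) (by rw [hz0]; exact hg o)
    (by rw [hzk, mul_smul, inv_smul_smul]; exact hgw)
  have h2 : f (gw * γ⁻¹) = f gw - f γ := by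
    have h3 : f gw = f (gw * γ⁻¹) + f γ := by rw [← hfmul, inv_mul_cancel_right]
    linarith
  rw [h2] at h1
  have h4 : |f (g o)| ≤ ∑ o ∈ O, |f (g o)| :=
    Finset.single_le_sum (f := fun o => |f (g o)|) (fun _ _ => abs_nonneg _) ho
  have h5 : f γ = -(f gw - f γ - f (g o)) + (f gw - f (g o)) := by ring
  have h6 : |f γ| ≤ M * (k + 1) + C := by
    rw [h5]
    refine (abs_add_le _ _).trans ?_
    rw [abs_neg]
    have h7 : |f gw - f (g o)| ≤ C := by
      have := abs_sub (f gw) (f (g o))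
      rw [hC]
      linarith
    linarith
  have hd : 0 ≤ dist o (γ • w) := dist_nonneg
  have hexp : 1 + dist o (γ • w) ≤ Real.exp (dist o (γ • w)) := by
    have := Real.add_one_le_exp (dist o (γ • w)); linarith
  have hk' : (k : ℝ) + 1 ≤ 8 * Real.exp (dist o (γ • w)) := by
    have : (k : ℝ) ≤ 2 * dist o (γ • w) + 5 := by
      have := hk
      rw [div_one] at this
      linarith
    linarith
  rw [one_mul]
  calc |f γ| ≤ M * (k + 1) + C := h6
    _ ≤ M * (8 * Real.exp (dist o (γ • w))) + C * Real.exp (dist o (γ • w)) := by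
        refine add_le_add (mul_le_mul_of_nonneg_left hk' hM0) ?_
        refine le_mul_of_one_le_right hC0 (by linarith)
    _ = (8 * M + C) * Real.exp (dist o (γ • w)) := by ring

/-- Automorphic forms of large weight without common zeros on a cocompact Fuchsian group, together
with solutions of the cocycle equation for every homomorphism to `ℤ`. -/
theorem exists_pq_hyp (Γ : Subgroup SL(2, ℝ)) [DiscreteTopology Γ]
    (hfree : ∀ γ : Γ, γ ≠ 1 → ∀ w : ℍ, γ • w ≠ w)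
    (hcoc : ∃ K : Set ℍ, IsCompact K ∧ ∀ w : ℍ, ∃ γ : Γ, γ • w ∈ K) :
    ∃ (N : ℕ) (p q : ℂ → ℂ), DifferentiableOn ℂ p HH ∧ DifferentiableOn ℂ q HH ∧
      (∀ w : ℍ, p w ≠ 0 ∨ q w ≠ 0) ∧
      (∀ (γ : Γ) (w : ℍ), p ((γ • w : ℍ) : ℂ) = jf (γ : SL(2, ℝ)) w ^ N * p w) ∧
      (∀ (γ : Γ) (w : ℍ), q ((γ • w : ℍ) : ℂ) = jf (γ : SL(2, ℝ)) w ^ N * q w) ∧
      ∀ φ : Γ →* Multiplicative ℤ, ∃ P Q : ℂ → ℂ,
        DifferentiableOn ℂ P HH ∧ DifferentiableOn ℂ Q HH ∧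
        (∀ (γ : Γ) (w : ℍ), P ((γ • w : ℍ) : ℂ) =
          jf (γ : SL(2, ℝ)) w ^ N * (P w - ((Multiplicative.toAdd (φ γ) : ℤ) : ℂ) * p w)) ∧
        (∀ (γ : Γ) (w : ℍ), Q ((γ • w : ℍ) : ℂ) =
          jf (γ : SL(2, ℝ)) w ^ N * (Q w - ((Multiplicative.toAdd (φ γ) : ℤ) : ℂ) * q w)) := by
  obtain ⟨ι₀, hι0, hι⟩ := exists_inj Γ hfree hcoc
  obtain ⟨c, N₁, hc, hpen⟩ := pencils Γ hι0 hι
  have hsq : Filter.Tendsto (fun N : ℕ => Real.sqrt N) Filter.atTop Filter.atTop :=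
    Real.tendsto_sqrt_atTop.comp tendsto_natCast_atTop_atTop
  obtain ⟨N, ⟨⟨hN1, hN256⟩, hNι⟩⟩ := (((Filter.eventually_ge_atTop N₁).and
    (Filter.eventually_ge_atTop 256)).and (hsq.eventually_ge_atTop (1 / ι₀))).exists
  have hs16 := e2_sqrt hN256
  have hr0 : 0 < 1 / Real.sqrt N := by positivity
  have hrι : 1 / Real.sqrt N ≤ ι₀ := by
    rw [div_le_iff₀ (by positivity)]
    rw [div_le_iff₀ hι0] at hNι
    linarith
  obtain ⟨O, hO⟩ := exists_net Γ hcoc hι hr0 hrι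
  obtain ⟨a, b, ha, hb, hab⟩ := hpen N hN1 O hO
  have hconst : ∀ {a : ℍ → ℂ}, (∀ o, ‖a o‖ ≤ 2) → ∀ w : ℍ, ∀ o ∈ O, ∀ γ : Γ,
      ‖(fun (o : ℍ) (_ : Γ) => a o) o γ‖ ≤ 2 * Real.exp (0 * dist o (γ • w)) := by
    intro a ha w o _ γ
    rw [zero_mul, Real.exp_zero, mul_one]
    exact ha o
  have hgr : ∀ {a : ℍ → ℂ}, (∀ o, ‖a o‖ ≤ 2) → ∀ (φ : Γ →* Multiplicative ℤ) (w : ℍ),
      ∃ B : ℝ, ∀ o ∈ O, ∀ γ : Γ, ‖(fun (o : ℍ) (γ : Γ) =>
        a o * ((Multiplicative.toAdd (φ γ) : ℤ) : ℂ)) o γ‖ ≤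
          B * Real.exp (1 * dist o (γ • w)) := by
    intro a ha φ w
    obtain ⟨B, hB0, hB⟩ := hom_growth Γ hcoc φ O w
    refine ⟨2 * B, fun o ho γ => ?_⟩
    have h1 : ‖((Multiplicative.toAdd (φ γ) : ℤ) : ℂ)‖ =
        |((Multiplicative.toAdd (φ γ) : ℤ) : ℝ)| := by
      rw [← Complex.ofReal_intCast, Complex.norm_real, Real.norm_eq_abs]
    simp only
    rw [norm_mul, h1, mul_assoc]
    exact mul_le_mul (ha o) (hB o ho γ) (abs_nonneg _) (by norm_num)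
  have h21 : 2 * (1 : ℝ) ≤ Real.sqrt N := by linarith
  have h20 : 2 * (0 : ℝ) ≤ Real.sqrt N := by linarith
  have hdiff : ∀ {a : ℍ → ℂ}, (∀ o, ‖a o‖ ≤ 2) → DifferentiableOn ℂ (PS Γ N O (fun o _ => a o)) HH :=
    fun {a} ha => differentiableOn_PS (B := 2) (C := 0) hN256 hO le_rfl h20 UpperHalfPlane.I
      (hconst ha UpperHalfPlane.I)
  have hdiffφ : ∀ {a : ℍ → ℂ}, (∀ o, ‖a o‖ ≤ 2) → ∀ φ : Γ →* Multiplicative ℤ,
      DifferentiableOn ℂ (PS Γ N O (fun o γ => a o * ((Multiplicative.toAdd (φ γ) : ℤ) : ℂ))) HH := by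
    intro a ha φ
    obtain ⟨B, hB⟩ := hgr ha φ UpperHalfPlane.I
    exact differentiableOn_PS (B := B) (C := 1) hN256 hO zero_le_one h21 UpperHalfPlane.I hB
  have haut : ∀ {a : ℍ → ℂ}, (∀ o, ‖a o‖ ≤ 2) → ∀ (φ : Γ →* Multiplicative ℤ) (δ : Γ) (w : ℍ),
      PS Γ N O (fun o γ => a o * ((Multiplicative.toAdd (φ γ) : ℤ) : ℂ)) ((δ • w : ℍ) : ℂ) =
        jf (δ : SL(2, ℝ)) w ^ N *
          (PS Γ N O (fun o γ => a o * ((Multiplicative.toAdd (φ γ) : ℤ) : ℂ)) w -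
            ((Multiplicative.toAdd (φ δ) : ℤ) : ℂ) * PS Γ N O (fun o _ => a o) w) := by
    intro a ha φ δ w
    rw [PS_smul]
    congr 1
    unfold PS
    rw [Finset.mul_sum, ← Finset.sum_sub_distrib]
    refine Finset.sum_congr rfl fun o ho => ?_
    obtain ⟨B, hB⟩ := hgr ha φ w
    have s1 := summable_PS (B := B) (C := 1) hN256 hO zero_le_one h21 w hB ho
    have s2 := summable_PS (B := 2) (C := 0) hN256 hO le_rfl h20 w (hconst ha w) ho
    rw [← tsum_mul_left, ← s1.tsum_sub (s2.mul_left _)]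
    refine tsum_congr fun γ => ?_
    simp only
    rw [map_mul, map_inv, toAdd_mul, toAdd_inv]
    push_cast
    ring
  refine ⟨N, PS Γ N O (fun o _ => a o), PS Γ N O (fun o _ => b o), hdiff ha, hdiff hb, ?_, ?_, ?_, ?_⟩
  · intro w
    by_contra hcon
    push Not at hcon
    have h1 := hab w
    rw [hcon.1, hcon.2, norm_zero, zero_mul, max_self] at h1
    linarith
  · intro γ w
    rw [PS_smul]
  · intro γ w
    rw [PS_smul]
  · intro φ
    exact ⟨_, _, hdiffφ ha φ, hdiffφ hb φ, haut ha φ, haut hb φ⟩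

end Pool.Agent.TwistGen
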