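import Mathlib
import Pool.Agent.Lib.MP_1d980c_gt.Gen.CurveDef
import Pool.Agent.Lib.MP_1d980c_gt.Gen.HypPQ
import Pool.Agent.Lib.MP_1d980c_gt.TauLifts
import Pool.Agent.Lib.MP_1d980c_gt.Hyp.CocycleH

set_option autoImplicit false
set_option maxHeartbeats 1000000
open scoped UpperHalfPlane MatrixGroups Manifold ContDiff Matrix Topology
open Complex ComplexConjugate Set

namespace Pool.Agent.TwistGen

open Pool.Agent.HypBundle

namespace Curve

lemma isOpen_dom (C : Curve) : IsOpen C.dom := by
  cases C with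
  | elliptic τ hτ => exact isOpen_univ
  | hyperbolic Γ hd hfree hcoc => exact isOpen_lt continuous_const Complex.continuous_im

/-- The action of the group is that of `SL(2, ℝ)` on the upper half plane. -/
lemma act_coe (Γ : Subgroup SL(2, ℝ)) (hd : DiscreteTopology Γ)
    (hfree : ∀ γ : Γ, γ ≠ 1 → ∀ w : ℍ, γ • w ≠ w)
    (hcoc : ∃ K : Set ℍ, IsCompact K ∧ ∀ w : ℍ, ∃ γ : Γ, γ • w ∈ K) (γ : Γ) (w : ℍ) :
    (hyperbolic Γ hd hfree hcoc).act γ w = ((γ • w : ℍ) : ℂ) :=
  (UpperHalfPlane.coe_specialLinearGroup_apply (γ : SL(2, ℝ)) w).symm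

/-- Local constancy of the deck transformation relating two lifts. -/
theorem locally_const (C : Curve) {X : Type} [TopologicalSpace X] {f f' : X → ℂ} {U : Set X}
    (hU : IsOpen U) (hf : ContinuousOn f U) (hf' : ContinuousOn f' U)
    (hdom : ∀ y ∈ U, f y ∈ C.dom) (hdom' : ∀ y ∈ U, f' y ∈ C.dom)
    (h : ∀ y ∈ U, ∃ g : C.Grp, f' y = C.act g (f y)) {y : X} (hy : y ∈ U) (g : C.Grp)
    (hg : f' y = C.act g (f y)) : ∀ᶠ z in 𝓝 y, f' z = C.act g (f z) := by
  cases C with
  | elliptic τ hτ =>
    refine EllipticTwist.lattice_const hτ hU hf hf' ?_ hy _ _ hg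
    intro z hz
    obtain ⟨g', hg'⟩ := h z hz
    exact ⟨_, _, hg'⟩
  | hyperbolic Γ hd hfree hcoc =>
    obtain ⟨ι₀, hι0, hι⟩ := exists_inj Γ hfree hcoc
    have hcont : ∀ {f : X → ℂ}, ContinuousOn f U → (∀ y ∈ U, 0 < (f y).im) →
        ContinuousAt (fun z => UpperHalfPlane.ofComplex (f z)) y := by
      intro f hf hfd
      have h1 : ContinuousAt f y := hf.continuousAt (hU.mem_nhds hy)
      have h2 : ContinuousAt (fun z : ℂ => UpperHalfPlane.ofComplex z) (f y) :=
        (CH.cmdAt_ofComplex (hfd y hy)).continuousAt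
      exact ContinuousAt.comp (g := fun z : ℂ => UpperHalfPlane.ofComplex z) (f := f) h2 h1
    have hc := hcont hf hdom
    have hc' := hcont hf' hdom'
    have hrel : ∀ z ∈ U, ∀ g : Γ, f' z = (hyperbolic Γ hd hfree hcoc).act g (f z) ↔
        UpperHalfPlane.ofComplex (f' z) = g • UpperHalfPlane.ofComplex (f z) := by
      intro z hz g
      have e1 : ((UpperHalfPlane.ofComplex (f z) : ℍ) : ℂ) = f z := by
        rw [UpperHalfPlane.ofComplex_apply_of_im_pos (hdom z hz)]
      have e2 : ((UpperHalfPlane.ofComplex (f' z) : ℍ) : ℂ) = f' z := by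
        rw [UpperHalfPlane.ofComplex_apply_of_im_pos (hdom' z hz)]
      have e3 := act_coe Γ hd hfree hcoc g (UpperHalfPlane.ofComplex (f z))
      rw [e1] at e3
      rw [e3]
      constructor
      · intro h
        apply UpperHalfPlane.ext
        rw [e2]
        exact h
      · intro h
        rw [← e2, h]
    have hlim : ContinuousAt (fun z => dist (UpperHalfPlane.ofComplex (f' z))
        ((show Γ from g) • UpperHalfPlane.ofComplex (f z))) y :=
      hc'.dist ((continuous_const_smul (show Γ from g)).continuousAt.comp hc)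
    have h0 : dist (UpperHalfPlane.ofComplex (f' y))
        ((show Γ from g) • UpperHalfPlane.ofComplex (f y)) < ι₀ := by
      rw [(hrel y hy g).1 hg, dist_self]
      exact hι0
    filter_upwards [hlim.eventually (gt_mem_nhds h0), hU.mem_nhds hy] with z hz hzU
    obtain ⟨g', hg'⟩ := h z hzU
    have h1 := (hrel z hzU g').1 hg'
    have h2 : (show Γ from g') * (show Γ from g)⁻¹ = 1 := by
      by_contra hne
      have h3 := hι _ hne ((show Γ from g) • UpperHalfPlane.ofComplex (f z))
      rw [smul_smul, inv_mul_cancel_right, dist_comm] at h3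
      rw [h1] at hz
      exact absurd hz (not_lt.2 h3)
    have h4 : (show Γ from g') = (show Γ from g) := mul_inv_eq_one.1 h2
    have h5 : f' z = (hyperbolic Γ hd hfree hcoc).act g' (f z) := hg'
    rw [h5]
    exact congrArg (fun g : Γ => (hyperbolic Γ hd hfree hcoc).act g (f z)) h4

end Curve

/-- Automorphic forms without common zeros, with solutions of the cocycle equation for every
homomorphism to `ℤ`. -/
structure PQ (C : Curve) where
  e : C.Grp → ℂ → ℂ
  p : ℂ → ℂ
  q : ℂ → ℂ
  he : ∀ g, DifferentiableOn ℂ (e g) C.dom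
  e_ne : ∀ g, ∀ w ∈ C.dom, e g w ≠ 0
  hp : DifferentiableOn ℂ p C.dom
  hq : DifferentiableOn ℂ q C.dom
  pq_ne : ∀ w ∈ C.dom, p w ≠ 0 ∨ q w ≠ 0
  p_act : ∀ g, ∀ w ∈ C.dom, p (C.act g w) = e g w * p w
  q_act : ∀ g, ∀ w ∈ C.dom, q (C.act g w) = e g w * q w
  P : (C.Grp →* Multiplicative ℤ) → ℂ → ℂ
  Q : (C.Grp →* Multiplicative ℤ) → ℂ → ℂ
  hP : ∀ φ, DifferentiableOn ℂ (P φ) C.dom
  hQ : ∀ φ, DifferentiableOn ℂ (Q φ) C.dom
  P_act : ∀ φ g, ∀ w ∈ C.dom, P φ (C.act g w) =
    e g w * (P φ w - ((Multiplicative.toAdd (φ g) : ℤ) : ℂ) * p w)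
  Q_act : ∀ φ g, ∀ w ∈ C.dom, Q φ (C.act g w) =
    e g w * (Q φ w - ((Multiplicative.toAdd (φ g) : ℤ) : ℂ) * q w)

theorem exists_PQ (C : Curve) : Nonempty (PQ C) := by
  classical
  cases C with
  | elliptic τ hτ =>
    obtain ⟨c, hc⟩ := EllipticTwist.exists_shift_tau hτ
    have hd : Differentiable ℂ (fun w : ℂ => jacobiTheta₂ w τ) :=
      fun w => differentiableAt_jacobiTheta₂_fst w hτ
    set p : ℂ → ℂ := fun w => jacobiTheta₂ w τ * jacobiTheta₂ w τ with hp
    set q : ℂ → ℂ := fun w => jacobiTheta₂ (w + c) τ * jacobiTheta₂ (w - c) τ with hq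
    have hpd : Differentiable ℂ p := hd.mul hd
    have hqd : Differentiable ℂ q :=
      (hd.comp (differentiable_id.add_const c)).mul (hd.comp (differentiable_id.sub_const c))
    have hp1 : ∀ w, p (w + 1) = p w := by
      intro w; simp only [hp, jacobiTheta₂_add_left]
    have hq1 : ∀ w, q (w + 1) = q w := by
      intro w
      have e1 : w + 1 + c = (w + c) + 1 := by ring
      have e2 : w + 1 - c = (w - c) + 1 := by ring
      simp only [hq, e1, e2, jacobiTheta₂_add_left]
    have hpt : ∀ w, p (w + τ) = EllipticTwist.ft τ 1 w * p w := by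
      intro w
      simp only [hp, jacobiTheta₂_add_left', EllipticTwist.ft, Nat.cast_one, one_mul]
      have : Complex.exp (-(2 * Real.pi * I * (τ + 2 * w))) =
          Complex.exp (-Real.pi * I * (τ + 2 * w)) * Complex.exp (-Real.pi * I * (τ + 2 * w)) := by
        rw [← Complex.exp_add]; congr 1; ring
      rw [this]; ring
    have hqt : ∀ w, q (w + τ) = EllipticTwist.ft τ 1 w * q w := by
      intro w
      have e1 : w + τ + c = (w + c) + τ := by ring
      have e2 : w + τ - c = (w - c) + τ := by ring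
      simp only [hq, e1, e2, jacobiTheta₂_add_left', EllipticTwist.ft, Nat.cast_one, one_mul]
      have : Complex.exp (-(2 * Real.pi * I * (τ + 2 * w))) =
          Complex.exp (-Real.pi * I * (τ + 2 * (w + c))) *
            Complex.exp (-Real.pi * I * (τ + 2 * (w - c))) := by
        rw [← Complex.exp_add]; congr 1; ring
      rw [this]; ring
    -- the two functions as a matrix
    set L : ℂ → Matrix (Fin 1) (Fin (2 * 1)) ℂ := fun w _ j => if j = 0 then p w else q w with hL
    have hLd : ∀ i j, Differentiable ℂ (fun w => L w i j) := by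
      intro i j
      by_cases hj : j = 0
      · simp only [hL, hj, if_true]; exact hpd
      · simp only [hL, hj, if_false]; exact hqd
    have hL1 : ∀ w, L (w + 1) = L w := by
      intro w; funext i j; simp only [hL, hp1, hq1]
    have hLt : ∀ w i j, L (w + τ) i j = EllipticTwist.ft τ ((fun _ : Fin 1 => 1) i) w * L w i j := by
      intro w i j
      simp only [hL, hpt, hqt]
      split_ifs <;> rfl
    let G := Multiplicative (ℤ × ℤ)
    -- the homomorphism is determined by its values on the generators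
    have hφ : ∀ (φ : G →* Multiplicative ℤ) (g : G), (Multiplicative.toAdd (φ g) : ℤ) =
        (Multiplicative.toAdd g).1 * Multiplicative.toAdd (φ (Multiplicative.ofAdd (1, 0))) +
        (Multiplicative.toAdd g).2 * Multiplicative.toAdd (φ (Multiplicative.ofAdd (0, 1))) := by
      intro φ g
      have h1 : g = (Multiplicative.ofAdd ((1 : ℤ), (0 : ℤ))) ^ (Multiplicative.toAdd g).1 *
          (Multiplicative.ofAdd ((0 : ℤ), (1 : ℤ))) ^ (Multiplicative.toAdd g).2 := by
        apply Multiplicative.toAdd.injective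
        rw [toAdd_mul, toAdd_zpow, toAdd_zpow, toAdd_ofAdd, toAdd_ofAdd]
        ext <;> simp
      conv_lhs => rw [h1]
      rw [map_mul, map_zpow, map_zpow, toAdd_mul, toAdd_zpow, toAdd_zpow, smul_eq_mul, smul_eq_mul]
    have hH := EllipticTwist.Ht_translate (τ := τ) (L := L) (d := fun _ => 1) (fun _ => one_ne_zero)
      hLd hL1 hLt
    have hA := EllipticTwist.L_add_lattice (τ := τ) (L := L) (d := fun _ => 1) hL1 hLt
    set x1 : (G →* Multiplicative ℤ) → ℂ := fun φ =>
      ((Multiplicative.toAdd (φ (Multiplicative.ofAdd (1, 0))) : ℤ) : ℂ) with hx1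
    set y1 : (G →* Multiplicative ℤ) → ℂ := fun φ =>
      ((Multiplicative.toAdd (φ (Multiplicative.ofAdd (0, 1))) : ℤ) : ℂ) with hy1
    set vec : Fin (2 * 1) → ℂ → (Fin (2 * 1) → ℂ) := fun j x => fun k => if k = j then x else 0
      with hvec
    have hmv : ∀ (w : ℂ) (j : Fin (2 * 1)) (x : ℂ), (L w *ᵥ vec j x) 0 = L w 0 j * x := by
      intro w j x
      simp only [Matrix.mulVec, dotProduct, hvec, mul_ite, mul_zero, Finset.sum_ite_eq',
        Finset.mem_univ, if_true]
    have hHd : ∀ (x y : Fin (2 * 1) → ℂ), Differentiable ℂ (fun w => EllipticTwist.Ht τ L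
        (fun _ => 1) x y w 0) := by
      intro x y
      unfold EllipticTwist.Ht
      refine Differentiable.sub (Differentiable.mul differentiable_id.neg ?_)
        (Differentiable.const_mul ?_ _)
      · simp only [Matrix.mulVec, dotProduct]
        exact Differentiable.fun_sum fun j _ => (hLd 0 j).mul_const _
      · simp only [Matrix.mulVec, dotProduct]
        exact Differentiable.fun_sum fun j _ =>
          (EllipticTwist.differentiable_Ldt hLd 0 j).mul_const _
    have hkey : ∀ (j : Fin (2 * 1)) (φ : G →* Multiplicative ℤ) (g : G) (w : ℂ),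
        EllipticTwist.Ht τ L (fun _ => 1) (vec j (x1 φ)) (vec j (y1 φ))
          (w + (((Multiplicative.toAdd g).1 : ℤ) + ((Multiplicative.toAdd g).2 : ℤ) * τ)) 0 =
        EllipticTwist.Eft τ 1 (Multiplicative.toAdd g).2 w *
          (EllipticTwist.Ht τ L (fun _ => 1) (vec j (x1 φ)) (vec j (y1 φ)) w 0 -
            ((Multiplicative.toAdd (φ g) : ℤ) : ℂ) * L w 0 j) := by
      intro j φ g w
      rw [hH, Matrix.mulVec_add, Matrix.mulVec_smul, Matrix.mulVec_smul, Pi.add_apply,
        Pi.smul_apply, Pi.smul_apply, hmv, hmv, hφ φ g]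
      simp only [smul_eq_mul, hx1, hy1]
      push_cast
      ring
    refine ⟨
      { e := fun g w => EllipticTwist.Eft τ 1 (Multiplicative.toAdd (show G from g)).2 w
        p := p
        q := q
        he := fun g => ((EllipticTwist.contDiff_Eft τ 1 _).differentiable (by simp)).differentiableOn
        e_ne := fun g w _ => Complex.exp_ne_zero _
        hp := hpd.differentiableOn
        hq := hqd.differentiableOn
        pq_ne := fun w _ => hc w
        p_act := fun g w _ => ?_
        q_act := fun g w _ => ?_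
        P := fun φ w => EllipticTwist.Ht τ L (fun _ => 1) (vec 0 (x1 φ)) (vec 0 (y1 φ)) w 0
        Q := fun φ w => EllipticTwist.Ht τ L (fun _ => 1) (vec 1 (x1 φ)) (vec 1 (y1 φ)) w 0
        hP := fun φ => (hHd _ _).differentiableOn
        hQ := fun φ => (hHd _ _).differentiableOn
        P_act := fun φ g w _ => ?_
        Q_act := fun φ g w _ => ?_ }⟩
    · have := hA (Multiplicative.toAdd (show G from g)).1 (Multiplicative.toAdd (show G from g)).2
        w 0 0
      exact this
    · have := hA (Multiplicative.toAdd (show G from g)).1 (Multiplicative.toAdd (show G from g)).2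
        w 0 1
      exact this
    · exact hkey 0 φ g w
    · exact hkey 1 φ g w
  | hyperbolic Γ hd hfree hcoc =>
    obtain ⟨N, p, q, hp, hq, hne, hpa, hqa, hφ⟩ := exists_pq_hyp Γ hfree hcoc
    choose P Q hP hQ hPa hQa using hφ
    have hcoe : ∀ w : ℂ, 0 < w.im → ∃ w' : ℍ, (w' : ℂ) = w := fun w hw => ⟨⟨w, hw⟩, rfl⟩
    refine ⟨
      { e := fun g w => jf ((show Γ from g) : SL(2, ℝ)) w ^ N
        p := p
        q := q
        he := fun g => ?_
        e_ne := fun g w hw => pow_ne_zero _ (jf_ne hw)
        hp := hp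
        hq := hq
        pq_ne := fun w hw => ?_
        p_act := fun g w hw => ?_
        q_act := fun g w hw => ?_
        P := P
        Q := Q
        hP := hP
        hQ := hQ
        P_act := fun φ g w hw => ?_
        Q_act := fun φ g w hw => ?_ }⟩
    · refine DifferentiableOn.pow ?_ N
      unfold jf
      fun_prop
    · obtain ⟨w', rfl⟩ := hcoe w hw
      exact hne w'
    · obtain ⟨w', rfl⟩ := hcoe w hw
      rw [Curve.act_coe Γ hd hfree hcoc g w']
      exact hpa g w'
    · obtain ⟨w', rfl⟩ := hcoe w hw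
      rw [Curve.act_coe Γ hd hfree hcoc g w']
      exact hqa g w'
    · obtain ⟨w', rfl⟩ := hcoe w hw
      rw [Curve.act_coe Γ hd hfree hcoc g w']
      exact hPa φ g w'
    · obtain ⟨w', rfl⟩ := hcoe w hw
      rw [Curve.act_coe Γ hd hfree hcoc g w']
      exact hQa φ g w'

end Pool.Agent.TwistGen
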