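import Mathlib
import Pool.Agent.Lib.MP_1d980c_gt.Gen.Curve
import Pool.Agent.Lib.MP_1d980c_gt.Gen.AffMain

set_option autoImplicit false
set_option maxHeartbeats 1000000
open scoped Manifold ContDiff Matrix Topology
open Complex Set

namespace Pool.Agent.TwistGen

open Pool.Agent.TorusBundle Pool.Agent.EllipticTwist

variable {m : ℕ}

/-- The twistor family with one factor of every monomial replaced: `p` by `E` or `q` by `F`. -/
noncomputable def Lrep (m : ℕ) (p q E F : ℂ) : Fin m → Fin (2 * m) → ℂ := fun i x =>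
  q ^ (deg m i - 1) * F * coef m i 0 x +
    ∑ j ∈ Finset.Icc 1 (deg m i), p ^ (j - 1) * q ^ (deg m i - j) * E * coef m i j x

lemma Lrep_pq (hm : 2 ≤ m) (p q : ℂ) : Lrep m p q p q = Lpq m p q := by
  have hd := deg_ne_zero hm
  funext i x
  unfold Lrep Lpq
  rw [Finset.sum_range_succ', add_comm]
  congr 1
  · rw [← Finset.sum_image (s := Finset.range (deg m i)) (g := fun j => j + 1)
      (f := fun j => (p ^ j * q ^ (deg m i - j)) * coef m i j x)
      (by intro a _ b _ h; simpa using h)]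
    have himg : (Finset.range (deg m i)).image (fun j => j + 1)
        = Finset.Icc 1 (deg m i) := by
      ext j
      rw [Finset.mem_image, Finset.mem_Icc]
      constructor
      · rintro ⟨a, ha, rfl⟩
        rw [Finset.mem_range] at ha
        omega
      · rintro ⟨h1, h2⟩
        exact ⟨j - 1, Finset.mem_range.2 (by omega), by omega⟩
    rw [himg]
    refine Finset.sum_congr rfl fun j hj => ?_
    rw [Finset.mem_Icc] at hj
    have : p ^ j = p ^ (j - 1) * p := by rw [← pow_succ]; congr 1; omega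
    rw [this]; ring
  · rw [pow_zero, Nat.sub_zero]
    have : q ^ (deg m i) = q ^ (deg m i - 1) * q := by
      rw [← pow_succ]; congr 1; have := hd i; omega
    rw [this]; ring

/-- Behaviour under the deck transformations. -/
lemma Lrep_act (hm : 2 ≤ m) (g a p q E F : ℂ) (i : Fin m) (x : Fin (2 * m)) :
    Lrep m (g * p) (g * q) (g * (E - a * p)) (g * (F - a * q)) i x =
      g ^ deg m i * (Lrep m p q E F i x - a * Lrep m p q p q i x) := by
  have hd := deg_ne_zero hm i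
  unfold Lrep
  have e0 : g ^ deg m i = g ^ (deg m i - 1) * g := by rw [← pow_succ]; congr 1; omega
  have e1 : (g * q) ^ (deg m i - 1) * (g * (F - a * q)) * coef m i 0 x =
      g ^ deg m i * (q ^ (deg m i - 1) * F * coef m i 0 x -
        a * (q ^ (deg m i - 1) * q * coef m i 0 x)) := by
    rw [mul_pow, e0]; ring
  have e2 : ∀ j ∈ Finset.Icc 1 (deg m i),
      (g * p) ^ (j - 1) * (g * q) ^ (deg m i - j) * (g * (E - a * p)) * coef m i j x =
      g ^ deg m i * (p ^ (j - 1) * q ^ (deg m i - j) * E * coef m i j x -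
        a * (p ^ (j - 1) * q ^ (deg m i - j) * p * coef m i j x)) := by
    intro j hj
    rw [Finset.mem_Icc] at hj
    have e3 : g ^ deg m i = g ^ (j - 1) * g ^ (deg m i - j) * g := by
      rw [← pow_add, ← pow_succ]; congr 1; omega
    rw [mul_pow, mul_pow, e3]; ring
  rw [e1, Finset.sum_congr rfl e2, ← Finset.mul_sum, Finset.sum_sub_distrib, ← Finset.mul_sum]
  ring

lemma Lrep_nd (hm : 2 ≤ m) {p q : ℂ} (h : p ≠ 0 ∨ q ≠ 0) (v : Fin (2 * m) → ℝ)
    (hv : rmap (Lrep m p q p q) v = 0) : v = 0 := by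
  apply ND_Lpq hm h v
  funext i
  have h1 := congrFun hv i
  rw [rmap_apply, Lrep_pq hm] at h1
  exact h1

/-- Holomorphic dependence. -/
lemma contDiff_Lrep (i : Fin m) (x : Fin (2 * m)) :
    ContDiff ℂ ∞ (fun z : ℂ × ℂ × ℂ × ℂ => Lrep m z.1 z.2.1 z.2.2.1 z.2.2.2 i x) := by
  have h1 : ContDiff ℂ ∞ (fun z : ℂ × ℂ × ℂ × ℂ => z.1) := contDiff_fst
  have h2 : ContDiff ℂ ∞ (fun z : ℂ × ℂ × ℂ × ℂ => z.2.1) := contDiff_fst.comp contDiff_snd
  have h3 : ContDiff ℂ ∞ (fun z : ℂ × ℂ × ℂ × ℂ => z.2.2.1) :=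
    contDiff_fst.comp (contDiff_snd.comp contDiff_snd)
  have h4 : ContDiff ℂ ∞ (fun z : ℂ × ℂ × ℂ × ℂ => z.2.2.2) :=
    contDiff_snd.comp (contDiff_snd.comp contDiff_snd)
  unfold Lrep
  refine (((h2.pow _).mul h4).mul contDiff_const).add (ContDiff.sum fun j _ => ?_)
  exact ((((h1.pow _).mul (h2.pow _)).mul h3).mul contDiff_const)

section Comp

variable {n : ℕ} {X : Type} [TopologicalSpace X] [ChartedSpace (EuclideanSpace ℂ (Fin n)) X]

/-- Composition of a holomorphic function of one variable with a holomorphic function. -/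
lemma comp_hol {f : ℂ → ℂ} {D : Set ℂ} (hD : IsOpen D) (hf : DifferentiableOn ℂ f D) {w : X → ℂ}
    {U : Set X} (hw : ContMDiffOn 𝓘(ℂ, EuclideanSpace ℂ (Fin n)) 𝓘(ℂ, ℂ) ∞ w U)
    (hm : ∀ x ∈ U, w x ∈ D) :
    ContMDiffOn 𝓘(ℂ, EuclideanSpace ℂ (Fin n)) 𝓘(ℂ, ℂ) ∞ (fun x => f (w x)) U :=
  ((hf.contDiffOn hD).contMDiffOn).comp hw hm

lemma Lrep_hol {D : Set ℂ} (hD : IsOpen D) {p q E F : ℂ → ℂ} (hp : DifferentiableOn ℂ p D)
    (hq : DifferentiableOn ℂ q D) (hE : DifferentiableOn ℂ E D) (hF : DifferentiableOn ℂ F D)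
    {w : X → ℂ} {U : Set X} (hw : ContMDiffOn 𝓘(ℂ, EuclideanSpace ℂ (Fin n)) 𝓘(ℂ, ℂ) ∞ w U)
    (hm : ∀ x ∈ U, w x ∈ D) (i : Fin m) (k : Fin (2 * m)) :
    ContMDiffOn 𝓘(ℂ, EuclideanSpace ℂ (Fin n)) 𝓘(ℂ, ℂ) ∞
      (fun x => Lrep m (p (w x)) (q (w x)) (E (w x)) (F (w x)) i k) U := by
  have h := (comp_hol hD hp hw hm).prodMk_space ((comp_hol hD hq hw hm).prodMk_space
    ((comp_hol hD hE hw hm).prodMk_space (comp_hol hD hF hw hm)))
  have hF' := (contDiff_Lrep (m := m) i k).contMDiff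
  refine ContMDiffOn.congr (hF'.comp_contMDiffOn h) (fun x _ => ?_)
  simp only [Function.comp]

end Comp

end Pool.Agent.TwistGen
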