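import Mathlib

set_option autoImplicit false
set_option maxHeartbeats 1000000
open Complex ComplexConjugate

namespace Pool.Agent.TwistGen

/-- The coefficients of the product of three linear polynomials `a l 0 + a l 1 * X`. -/
noncomputable def Tri (a : Fin 3 → Fin 2 → ℂ) : Fin 4 → ℂ :=
  ![a 0 0 * a 1 0 * a 2 0,
    a 0 1 * a 1 0 * a 2 0 + a 0 0 * a 1 1 * a 2 0 + a 0 0 * a 1 0 * a 2 1,
    a 0 1 * a 1 1 * a 2 0 + a 0 1 * a 1 0 * a 2 1 + a 0 0 * a 1 1 * a 2 1,
    a 0 1 * a 1 1 * a 2 1]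

lemma Tri_eq_zero {a : Fin 3 → Fin 2 → ℂ} (h : Tri a = 0) : ∃ l, a l 0 = 0 ∧ a l 1 = 0 := by
  have h0 : a 0 0 * a 1 0 * a 2 0 = 0 := by simpa [Tri] using congrFun h 0
  have h1 : a 0 1 * a 1 0 * a 2 0 + a 0 0 * a 1 1 * a 2 0 + a 0 0 * a 1 0 * a 2 1 = 0 := by
    simpa [Tri] using congrFun h 1
  have h2 : a 0 1 * a 1 1 * a 2 0 + a 0 1 * a 1 0 * a 2 1 + a 0 0 * a 1 1 * a 2 1 = 0 := by
    simpa [Tri] using congrFun h 2
  have h3 : a 0 1 * a 1 1 * a 2 1 = 0 := by simpa [Tri] using congrFun h 3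
  by_contra hcon
  push Not at hcon
  by_cases z0 : a 0 0 = 0
  · have n0 := hcon 0 z0
    simp only [z0, zero_mul, zero_add, add_zero, mul_eq_zero, n0, false_or] at h1 h2 h3
    by_cases z1 : a 1 0 = 0
    · have n1 := hcon 1 z1
      simp only [z1, zero_mul, mul_zero, zero_add, add_zero, mul_eq_zero, n0, n1, false_or] at h1 h2 h3
      exact hcon 2 h2 h3
    · have h1' : a 2 0 = 0 := by
        rcases h1 with h | h
        · exact absurd h z1
        · exact h
      have n2 := hcon 2 h1'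
      simp only [h1', mul_zero, zero_add, add_zero, mul_eq_zero, n0, n2, z1, false_or, or_false] at h2
  · have h0' : a 1 0 = 0 ∨ a 2 0 = 0 := by
      rcases mul_eq_zero.1 h0 with h | h
      · rcases mul_eq_zero.1 h with h | h
        · exact absurd h z0
        · exact Or.inl h
      · exact Or.inr h
    rcases h0' with z1 | z2
    · have n1 := hcon 1 z1
      simp only [z1, mul_zero, zero_mul, zero_add, add_zero, mul_eq_zero, z0, n1, false_or] at h1 h2 h3
      have n2 := hcon 2 h1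
      simp only [h1, n2, mul_zero, zero_add, mul_eq_zero, z0, n1, false_or, or_false] at h2
    · have n2 := hcon 2 z2
      simp only [z2, mul_zero, zero_mul, zero_add, add_zero, mul_eq_zero, z0, n2, false_or,
        or_false] at h1 h2 h3
      have n1 := hcon 1 h1
      simp only [h1, mul_zero, zero_mul, zero_add, mul_eq_zero, z0, n1, n2, or_false] at h2

/-- The skew-symmetric matrices attached to complex vectors, as matrices acting on the vector. -/
noncomputable def Sm (x : Fin 4 → ℂ) : Fin 4 → Fin 6 → ℂ :=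
  ![![x 1, I * x 1, x 2, I * x 2, x 3, I * x 3],
    ![-x 0, -(I * x 0), -x 3, I * x 3, x 2, -(I * x 2)],
    ![x 3, -(I * x 3), -x 0, -(I * x 0), -x 1, I * x 1],
    ![-x 2, I * x 2, x 1, -(I * x 1), -x 0, -(I * x 0)]]

/-- `S V x`, bilinear, with `a · S V b = - b · S V a`. -/
noncomputable def Sv (V : Fin 6 → ℂ) (x : Fin 4 → ℂ) : Fin 4 → ℂ := fun i => ∑ b, Sm x i b * V b

/-- the bilinear form -/
noncomputable def dt (a b : Fin 4 → ℂ) : ℂ := ∑ i, a i * b i

/-- the Hermitian norm -/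
noncomputable def nr (x : Fin 4 → ℂ) : ℂ := ∑ i, x i * conj (x i)

lemma Sv_formula (V : Fin 6 → ℂ) (x : Fin 4 → ℂ) : Sv V x =
    ![(V 0 + I * V 1) * x 1 + (V 2 + I * V 3) * x 2 + (V 4 + I * V 5) * x 3,
      -(V 0 + I * V 1) * x 0 + (V 4 - I * V 5) * x 2 - (V 2 - I * V 3) * x 3,
      -(V 2 + I * V 3) * x 0 - (V 4 - I * V 5) * x 1 + (V 0 - I * V 1) * x 3,
      -(V 4 + I * V 5) * x 0 + (V 2 - I * V 3) * x 1 - (V 0 - I * V 1) * x 2] := by
  funext i
  fin_cases i <;> simp [Sv, Sm, Fin.sum_univ_succ] <;> ring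

lemma Sv_add_left (V W : Fin 6 → ℂ) (x : Fin 4 → ℂ) : Sv (V + W) x = Sv V x + Sv W x := by
  funext i
  simp only [Sv, Pi.add_apply, mul_add, Finset.sum_add_distrib]

lemma Sv_smul_left (a : ℂ) (V : Fin 6 → ℂ) (x : Fin 4 → ℂ) : Sv (a • V) x = a • Sv V x := by
  funext i
  simp only [Sv, Pi.smul_apply, smul_eq_mul, Finset.mul_sum]
  exact Finset.sum_congr rfl fun _ _ => by ring

lemma Sv_add_right (V : Fin 6 → ℂ) (x y : Fin 4 → ℂ) : Sv V (x + y) = Sv V x + Sv V y := by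
  rw [Sv_formula, Sv_formula, Sv_formula]
  funext i
  fin_cases i <;> simp <;> ring

lemma Sv_smul_right (a : ℂ) (V : Fin 6 → ℂ) (x : Fin 4 → ℂ) : Sv V (a • x) = a • Sv V x := by
  rw [Sv_formula, Sv_formula]
  funext i
  fin_cases i <;> simp <;> ring

lemma Sv_sum_left {s : ℕ} (c : Fin s → Fin 6 → ℂ) (x : Fin 4 → ℂ) :
    Sv (∑ r, c r) x = ∑ r, Sv (c r) x := by
  funext i
  rw [Finset.sum_apply]
  simp only [Sv, Finset.sum_apply, Finset.mul_sum]
  exact Finset.sum_comm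

lemma dt_skew (V : Fin 6 → ℂ) (x y : Fin 4 → ℂ) : dt x (Sv V y) = -dt y (Sv V x) := by
  rw [Sv_formula, Sv_formula]
  simp [dt, Fin.sum_univ_succ]
  ring

lemma dt_self (V : Fin 6 → ℂ) (x : Fin 4 → ℂ) : dt x (Sv V x) = 0 := by
  have h := dt_skew V x x
  have h2 : (2 : ℂ) * dt x (Sv V x) = 0 := by linear_combination h
  rcases mul_eq_zero.1 h2 with h3 | h3
  · norm_num at h3
  · exact h3

lemma dt_add_right (x y z : Fin 4 → ℂ) : dt x (y + z) = dt x y + dt x z := by
  simp only [dt, Pi.add_apply, mul_add, Finset.sum_add_distrib]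

lemma dt_add_left (x y z : Fin 4 → ℂ) : dt (x + y) z = dt x z + dt y z := by
  simp only [dt, Pi.add_apply, add_mul, Finset.sum_add_distrib]

lemma dt_smul_right (a : ℂ) (x y : Fin 4 → ℂ) : dt x (a • y) = a * dt x y := by
  simp only [dt, Pi.smul_apply, smul_eq_mul, Finset.mul_sum]
  exact Finset.sum_congr rfl fun _ _ => by ring

lemma dt_smul_left (a : ℂ) (x y : Fin 4 → ℂ) : dt (a • x) y = a * dt x y := by
  simp only [dt, Pi.smul_apply, smul_eq_mul, Finset.mul_sum]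
  exact Finset.sum_congr rfl fun _ _ => by ring

lemma dt_sum_right {s : ℕ} (x : Fin 4 → ℂ) (y : Fin s → Fin 4 → ℂ) :
    dt x (∑ r, y r) = ∑ r, dt x (y r) := by
  simp only [dt, Finset.sum_apply, Finset.mul_sum]
  exact Finset.sum_comm

lemma nr_ne_zero {x : Fin 4 → ℂ} (hx : x ≠ 0) : nr x ≠ 0 := by
  intro h
  apply hx
  have h1 : nr x = ((∑ i, Complex.normSq (x i) : ℝ) : ℂ) := by
    unfold nr
    push_cast
    exact Finset.sum_congr rfl fun i _ => Complex.mul_conj _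
  rw [h1] at h
  have h2 : ∑ i, Complex.normSq (x i) = 0 := by exact_mod_cast h
  rw [Finset.sum_eq_zero_iff_of_nonneg (fun i _ => Complex.normSq_nonneg _)] at h2
  funext i
  exact Complex.normSq_eq_zero.1 (h2 i (Finset.mem_univ i))

/-- The nondegeneracy of the family: `‖S v x‖² = |v|² ‖x‖²` for real `v`. -/
lemma Sv_nondeg {x : Fin 4 → ℂ} (hx : x ≠ 0) (v : Fin 6 → ℝ)
    (h : Sv (fun k => (v k : ℂ)) x = 0) : v = 0 := by
  have h1 : ∑ i, (Sv (fun k => (v k : ℂ)) x i) * conj (Sv (fun k => (v k : ℂ)) x i) =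
      (∑ k, (v k : ℂ) ^ 2) * nr x := by
    have hI : I ^ 2 = -1 := Complex.I_sq
    rw [Sv_formula, nr, Fin.sum_univ_four, Fin.sum_univ_four, Fin.sum_univ_six]
    simp only [Matrix.cons_val, map_add, map_sub, map_mul, map_neg, Complex.conj_ofReal,
      Complex.conj_I]
    ring_nf
    simp only [hI]
    ring
  rw [h] at h1
  simp only [Pi.zero_apply, map_zero, mul_zero, Finset.sum_const_zero] at h1
  have h2 : ∑ k, (v k : ℂ) ^ 2 = 0 := by
    rcases mul_eq_zero.1 h1.symm with h3 | h3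
    · exact h3
    · exact absurd h3 (nr_ne_zero hx)
  have h4 : ∑ k, (v k) ^ 2 = 0 := by exact_mod_cast h2
  rw [Finset.sum_eq_zero_iff_of_nonneg (fun i _ => sq_nonneg _)] at h4
  funext k
  exact pow_eq_zero_iff (two_ne_zero) |>.1 (h4 k (Finset.mem_univ k))

end Pool.Agent.TwistGen
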